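import Mathlib

set_option autoImplicit false

namespace Pool.Agent.H.MP_543a09_nt

open Polynomial Filter Finset

theorem evpos (Q : ℝ[X]) (m : ℕ) (hm : 1 ≤ m) (h0 : ∀ N, m < N → Q.coeff N = 0)
    (h1 : 0 < Q.coeff m) : ∀ᶠ x in atTop, 0 < Q.eval x := by
  have hd : Q.natDegree = m :=
    natDegree_eq_of_le_of_coeff_ne_zero (natDegree_le_iff_coeff_eq_zero.2 h0) h1.ne'
  refine (Q.tendsto_atTop_of_leadingCoeff_nonneg ?_ ?_).eventually_gt_atTop 0
  · exact natDegree_pos_iff_degree_pos.1 (by omega)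
  · rw [leadingCoeff, hd]; exact h1.le

theorem sand (P : ℝ[X]) (m : ℕ) (hm : 1 ≤ m) (hd : P.natDegree = m + 1) (hL : 0 < P.leadingCoeff) :
    ∃ g : ℝ, ∀ e : ℝ, 0 < e → ∃ X0 : ℝ, ∀ x, X0 ≤ x → 0 ≤ x + g - e ∧
      P.leadingCoeff * (x + g - e) ^ (m + 1) < P.eval x ∧
      P.eval x < P.leadingCoeff * (x + g + e) ^ (m + 1) := by
  obtain ⟨g, hg⟩ : ∃ g : ℝ, P.coeff m = P.leadingCoeff * (g * (m + 1)) :=
    ⟨P.coeff m / (P.leadingCoeff * (m + 1)), by field_simp⟩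
  refine ⟨g, fun e he => ?_⟩
  have z : ∀ s : ℝ, ∀ N, m < N →
      P.coeff N = (C P.leadingCoeff * (X + C s) ^ (m + 1)).coeff N := fun s N hN => by
    rw [coeff_C_mul, coeff_X_add_C_pow]
    rcases (Nat.succ_le_of_lt hN).eq_or_lt with h | h
    · rw [← h]; simp [leadingCoeff, hd]
    · rw [coeff_eq_zero_of_natDegree_lt (by omega), Nat.choose_eq_zero_of_lt h]; simp
  have w : ∀ s : ℝ, (C P.leadingCoeff * (X + C s) ^ (m + 1)).coeff m =
      P.leadingCoeff * (s * (m + 1)) := fun s => by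
    rw [coeff_C_mul, coeff_X_add_C_pow]; simp
  have p : 0 < P.leadingCoeff * (e * (m + 1)) := by positivity
  have a := evpos (P - C P.leadingCoeff * (X + C (g - e)) ^ (m + 1)) m hm
    (fun N hN => by rw [coeff_sub, ← z _ N hN, sub_self]) (by rw [coeff_sub, w, hg]; linarith)
  have b := evpos (C P.leadingCoeff * (X + C (g + e)) ^ (m + 1) - P) m hm
    (fun N hN => by rw [coeff_sub, ← z _ N hN, sub_self]) (by rw [coeff_sub, w, hg]; linarith)
  obtain ⟨X0, h⟩ := eventually_atTop.1 (a.and (b.and (eventually_ge_atTop (e - g))))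
  refine ⟨X0, fun x hx => ?_⟩
  obtain ⟨a, b, c⟩ := h x hx
  simp only [eval_sub, eval_mul, eval_C, eval_pow, eval_add, eval_X] at a b
  refine ⟨by linarith, ?_, ?_⟩
  · rw [add_sub_assoc]; linarith
  · rw [add_assoc]; linarith

theorem near (P : ℝ[X]) (m : ℕ) (hm : 1 ≤ m) (hd : P.natDegree = m + 1) (hL : 0 < P.leadingCoeff)
    (l : ℝ) (l0 : 0 < l) (l1 : l < 1) : ∃ g : ℝ, ∀ e : ℝ, 0 < e → ∃ X0 : ℝ, ∀ a u, X0 ≤ a → X0 ≤ u →
      P.eval u = l ^ (m + 1) * P.eval a → |u - l * a - g| ≤ e := by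
  obtain ⟨g, h⟩ := sand P m hm hd hL
  refine ⟨l * g - g, fun e he => ?_⟩
  obtain ⟨X0, h⟩ := h (e / 2) (by positivity)
  refine ⟨X0, fun a u ha hu E => ?_⟩
  obtain ⟨a0, a1, a2⟩ := h a ha
  obtain ⟨u0, u1, u2⟩ := h u hu
  have lp : 0 < l ^ (m + 1) := by positivity
  have x : u + g - e / 2 < l * (a + g + e / 2) := by
    refine lt_of_pow_lt_pow_left₀ (m + 1) (mul_nonneg l0.le (by linarith)) ?_
    refine lt_of_mul_lt_mul_left ?_ hL.le
    rw [mul_pow]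
    nlinarith [mul_lt_mul_of_pos_left a2 lp]
  have y : l * (a + g - e / 2) < u + g + e / 2 := by
    refine lt_of_pow_lt_pow_left₀ (m + 1) (by linarith) ?_
    refine lt_of_mul_lt_mul_left ?_ hL.le
    rw [mul_pow]
    nlinarith [mul_lt_mul_of_pos_left a1 lp]
  rw [abs_le]
  constructor <;> nlinarith

theorem cast_ev (F : ℤ[X]) (R : Type) [CommRing R] (a : ℕ) :
    (F.map (Int.castRingHom R)).eval (a : R) = ((F.eval (a : ℤ) : ℤ) : R) := by
  have := eval_intCast_map (Int.castRingHom R) F (a : ℤ)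
  simpa using this

theorem big (F : ℤ[X]) (hd : 0 < F.natDegree) (hL : 0 < F.leadingCoeff) (U M : ℕ) :
    ∃ n0 : ℕ, ∀ a : ℕ, n0 ≤ a → 0 < F.eval (a : ℤ) ∧
      ∀ u : ℕ, u < U → M * F.eval (u : ℤ) < F.eval (a : ℤ) := by
  have inj : Function.Injective (Int.castRingHom ℝ) := RingHom.injective_int _
  have t := ((F.map (Int.castRingHom ℝ)).tendsto_atTop_of_leadingCoeff_nonneg
    (natDegree_pos_iff_degree_pos.1 (by rwa [natDegree_map_eq_of_injective inj]))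
    (by rw [leadingCoeff_map_of_injective inj]; simpa using hL.le)).comp
    tendsto_natCast_atTop_atTop
  obtain ⟨n0, h⟩ := eventually_atTop.1
    (t.eventually_gt_atTop ((M * ∑ u ∈ range U, |F.eval (u : ℤ)| : ℤ) : ℝ))
  refine ⟨n0, fun a ha => ?_⟩
  have h := h a ha
  simp only [Function.comp, cast_ev] at h
  have h : M * ∑ u ∈ range U, |F.eval (u : ℤ)| < F.eval (a : ℤ) := by exact_mod_cast h
  refine ⟨lt_of_le_of_lt (by positivity) h, fun u hu => lt_of_le_of_lt ?_ h⟩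
  exact mul_le_mul_of_nonneg_left ((le_abs_self _).trans (single_le_sum
    (f := fun u : ℕ => |F.eval (u : ℤ)|) (fun _ _ => abs_nonneg _) (mem_range.2 hu))) (by positivity)

theorem mono (F : ℤ[X]) (hd : 2 ≤ F.natDegree) (hL : 0 < F.leadingCoeff) :
    ∃ n0 : ℕ, ∀ a : ℕ, n0 ≤ a → 0 < F.eval (a : ℤ) ∧
      ∀ u : ℕ, u < a → F.eval (u : ℤ) < F.eval (a : ℤ) := by
  have inj : Function.Injective (Int.castRingHom ℝ) := RingHom.injective_int _
  have pL : 0 < (F.map (Int.castRingHom ℝ)).leadingCoeff := by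
    rw [leadingCoeff_map_of_injective inj]; simpa using hL
  obtain ⟨g, h⟩ := sand (F.map (Int.castRingHom ℝ)) (F.natDegree - 1) (by omega)
    (by rw [natDegree_map_eq_of_injective inj]; omega) pL
  obtain ⟨X0, h⟩ := h (1 / 2) (by norm_num)
  obtain ⟨n0, h0⟩ := big F (by omega) hL ⌈X0⌉₊ 1
  refine ⟨n0, fun a ha => ⟨(h0 a ha).1, fun u hu => ?_⟩⟩
  rcases lt_or_ge u ⌈X0⌉₊ with c | c
  · simpa using (h0 a ha).2 u c
  have c : X0 ≤ u := Nat.ceil_le.1 c
  have d : (u : ℝ) + 1 ≤ a := by exact_mod_cast hu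
  obtain ⟨u0, -, u2⟩ := h u c
  obtain ⟨-, a1, -⟩ := h a (by linarith)
  rw [cast_ev] at u2 a1
  have := mul_le_mul_of_nonneg_left (pow_le_pow_left₀ (by linarith)
    (show (u : ℝ) + g + 1 / 2 ≤ a + g - 1 / 2 by linarith) (F.natDegree - 1 + 1)) pL.le
  exact_mod_cast u2.trans (this.trans_lt a1)

theorem expand (G : ℂ[X]) (hG : G ≠ 0) (r s : ℂ) (hrs : r ≠ s) (hr : G.eval r = 0)
    (hs : G.eval s = 0) (x y : ℝ) (x0 : 0 < x) (x1 : x < 1)
    (h : ∀ z : ℂ, G.eval (x * z + y) = 0 → G.eval z = 0) : False := by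
  classical
  have mem : ∀ z, z ∈ G.roots.toFinset ↔ G.eval z = 0 := fun z => by simp [hG]
  obtain ⟨⟨a, b⟩, hab, mx⟩ := exists_max_image (G.roots.toFinset ×ˢ G.roots.toFinset)
    (fun p => ‖p.1 - p.2‖) ⟨(r, s), mem_product.2 ⟨(mem _).2 hr, (mem _).2 hs⟩⟩
  have xc : (x : ℂ) ≠ 0 := by exact_mod_cast x0.ne'
  have q : ∀ z, G.eval z = 0 → G.eval ((z - y) / x) = 0 := fun z hz =>
    h _ (by rwa [mul_div_cancel₀ _ xc, sub_add_cancel])
  have h1 := mx (r, s) (mem_product.2 ⟨(mem _).2 hr, (mem _).2 hs⟩)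
  have h2 := mx ((a - y) / x, (b - y) / x) (mem_product.2
    ⟨(mem _).2 (q _ ((mem _).1 (mem_product.1 hab).1)),
      (mem _).2 (q _ ((mem _).1 (mem_product.1 hab).2))⟩)
  simp only at h1 h2
  rw [← sub_div, sub_sub_sub_cancel_right, norm_div, Complex.norm_real, Real.norm_of_nonneg x0.le,
    div_le_iff₀ x0] at h2
  have := norm_pos_iff.2 (sub_ne_zero.2 hrs)
  nlinarith

end Pool.Agent.H.MP_543a09_nt
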