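import Mathlib
import Pool.Agent.H.MP_543a09_nt.A

set_option autoImplicit false

namespace Pool.Agent.H.MP_543a09_nt

open Polynomial Filter Finset

open Classical in
theorem window (F : ℤ[X]) (hd : 2 ≤ F.natDegree) (hL : 0 < F.leadingCoeff) (r s : ℂ) (hrs : r ≠ s)
    (hr : (F.map (Int.castRingHom ℂ)).eval r = 0) (hs : (F.map (Int.castRingHom ℂ)).eval s = 0)
    (k e K : ℕ) (k0 : 0 < k) (ke : k < e) : ∀ᶠ n : ℕ in atTop,
    ((Ico n (n + K)).filter fun a : ℕ =>
      ∃ u : ℕ, e * F.eval (u : ℤ) = k * F.eval (a : ℤ)).card ≤ F.natDegree := by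
  have inj : Function.Injective (Int.castRingHom ℝ) := RingHom.injective_int _
  have injc : Function.Injective (Int.castRingHom ℂ) := RingHom.injective_int _
  have pL : 0 < (F.map (Int.castRingHom ℝ)).leadingCoeff := by
    rw [leadingCoeff_map_of_injective inj]; simpa using hL
  have kr : (0 : ℝ) < k := by exact_mod_cast k0
  have er : (k : ℝ) < e := by exact_mod_cast ke
  have c0 : (0 : ℝ) < k / e := div_pos kr (kr.trans er)
  obtain ⟨l, l0, l1, hl⟩ : ∃ l : ℝ, 0 < l ∧ l < 1 ∧ l ^ (F.natDegree - 1 + 1) = k / e :=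
    ⟨(k / e : ℝ) ^ (((F.natDegree - 1 + 1 : ℕ) : ℝ)⁻¹), Real.rpow_pos_of_pos c0 _,
      Real.rpow_lt_one c0.le ((div_lt_one (kr.trans er)).2 er) (by positivity),
      Real.rpow_inv_natCast_pow c0.le (by omega)⟩
  obtain ⟨g, h⟩ := near (F.map (Int.castRingHom ℝ)) (F.natDegree - 1) (by omega)
    (by rw [natDegree_map_eq_of_injective inj]; omega) pL l l0 l1
  obtain ⟨t, t0, t1, t2, t3⟩ : ∃ t : ℝ, 0 < t ∧ 2 * t < l ∧ 2 * t < 1 - l ∧ 4 * t * K < 1 := by
    refine ⟨min (l / 4) (min ((1 - l) / 4) (1 / (4 * K + 1))), lt_min (by positivity)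
      (lt_min (by linarith) (by positivity)), ?_, ?_, ?_⟩
    · linarith [min_le_left (l / 4) (min ((1 - l) / 4) (1 / (4 * K + 1)))]
    · linarith [(min_le_right (l / 4) _).trans (min_le_left ((1 - l) / 4) (1 / (4 * (K : ℝ) + 1)))]
    · have := (min_le_right (l / 4) _).trans (min_le_right ((1 - l) / 4) (1 / (4 * (K : ℝ) + 1)))
      rw [le_div_iff₀ (by positivity)] at this
      have : 0 < min (l / 4) (min ((1 - l) / 4) (1 / (4 * (K : ℝ) + 1))) := lt_min (by positivity)
        (lt_min (by linarith) (by positivity))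
      nlinarith
  obtain ⟨X0, h⟩ := h t t0
  obtain ⟨n0, h0⟩ := big F (by omega) hL ⌈X0⌉₊ e
  filter_upwards [eventually_ge_atTop n0, eventually_ge_atTop ⌈X0⌉₊] with n n1 n2
  by_contra hc
  obtain ⟨S, hS⟩ : ∃ S, S = (Ico n (n + K)).filter fun a : ℕ =>
      ∃ u : ℕ, e * F.eval (u : ℤ) = k * F.eval (a : ℤ) := ⟨_, rfl⟩
  rw [← hS, not_le] at hc
  have m1 : ∀ a ∈ S, n ≤ a ∧ a < n + K := fun a ha => by
    rw [hS] at ha; exact mem_Ico.1 (mem_filter.1 ha).1
  have m2 : ∀ a : ℕ, ∃ u : ℕ, a ∈ S → e * F.eval (u : ℤ) = k * F.eval (a : ℤ) := fun a => by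
    by_cases ha : a ∈ S
    · rw [hS] at ha
      obtain ⟨u, hu⟩ := (mem_filter.1 ha).2
      exact ⟨u, fun _ => hu⟩
    · exact ⟨0, fun h => absurd h ha⟩
  choose U hU using m2
  have m3 : ∀ a ∈ S, |(U a : ℝ) - l * a - g| ≤ t := fun a ha => by
    obtain ⟨p, q⟩ := h0 a (n1.trans (m1 a ha).1)
    have E := hU a ha
    refine h a (U a) (Nat.ceil_le.1 (n2.trans (m1 a ha).1)) (Nat.ceil_le.1 (not_lt.1 fun c => ?_)) ?_
    · have := q _ c
      have : (1 : ℤ) ≤ k := by exact_mod_cast k0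
      nlinarith
    · rw [cast_ev, cast_ev, hl, div_mul_eq_mul_div, eq_div_iff (kr.trans er).ne', mul_comm]
      exact_mod_cast E
  obtain ⟨a, ha, b, hb, ab⟩ : ∃ a ∈ S, ∃ b ∈ S, a < b := by
    obtain ⟨a, ha, b, hb, ab⟩ := one_lt_card.1 (show 1 < S.card by omega)
    rcases lt_or_gt_of_ne ab with c | c
    exacts [⟨a, ha, b, hb, c⟩, ⟨b, hb, a, ha, c⟩]
  have d1 : (a : ℝ) + 1 ≤ b := by exact_mod_cast ab
  obtain ⟨x, hx⟩ : ∃ x : ℝ, (U b : ℝ) - U a = x * (b - a) :=
    ⟨((U b : ℝ) - U a) / (b - a), by rw [div_mul_cancel₀]; linarith⟩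
  obtain ⟨a1, a2⟩ := abs_le.1 (m3 a ha)
  obtain ⟨b1, b2⟩ := abs_le.1 (m3 b hb)
  have x0 : 0 < x := by nlinarith
  have x1 : x < 1 := by nlinarith
  have col : ∀ c ∈ S, (U c : ℝ) = x * c + (U a - x * a) := fun c hc => by
    obtain ⟨c1, c2⟩ := abs_le.1 (m3 c hc)
    have kb : (b : ℝ) - a ≤ K := by
      have : b ≤ a + K := by have := m1 a ha; have := m1 b hb; omega
      have : (b : ℝ) ≤ a + K := by exact_mod_cast this
      linarith
    have kc : |(c : ℝ) - a| ≤ K := by
      have u : c ≤ a + K ∧ a ≤ c + K := by have := m1 a ha; have := m1 c hc; omega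
      have v : (c : ℝ) ≤ a + K ∧ (a : ℝ) ≤ c + K := by exact_mod_cast u
      rw [abs_le]; constructor <;> linarith [v.1, v.2]
    have D : |((((U c : ℤ) - U a) * (b - a) - (U b - U a) * (c - a) : ℤ) : ℝ)| < 1 := by
      push_cast
      rw [show ((U c : ℝ) - U a) * (b - a) - (U b - U a) * (c - a) =
        (U c - U a - l * (c - a)) * (b - a) - (U b - U a - l * (b - a)) * (c - a) by ring]
      refine (abs_sub _ _).trans_lt ?_
      rw [abs_mul, abs_mul]
      have e1 : |(U c : ℝ) - U a - l * (c - a)| ≤ 2 * t := by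
        rw [abs_le]; constructor <;> linarith
      have e2 : |(U b : ℝ) - U a - l * (b - a)| ≤ 2 * t := by
        rw [abs_le]; constructor <;> linarith
      have e3 : |(b : ℝ) - a| ≤ K := by rw [abs_le]; constructor <;> linarith
      have := mul_le_mul e1 e3 (abs_nonneg _) (by positivity)
      have := mul_le_mul e2 kc (abs_nonneg _) (by positivity)
      linarith
    have D : (((U c : ℤ) - U a) * (b - a) - (U b - U a) * (c - a) : ℤ) = 0 :=
      Int.abs_lt_one_iff.1 (by exact_mod_cast D)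
    have D : ((U c : ℝ) - U a) * (b - a) - (U b - U a) * (c - a) = 0 := by exact_mod_cast D
    rw [hx] at D
    have : (b : ℝ) - a ≠ 0 := by linarith
    apply mul_right_cancel₀ this
    linear_combination D
  obtain ⟨y, hy⟩ : ∃ y : ℝ, y = U a - x * a := ⟨_, rfl⟩
  rw [← hy] at col
  obtain ⟨G, hG⟩ : ∃ G, G = F.map (Int.castRingHom ℂ) := ⟨_, rfl⟩
  have gd : G.natDegree = F.natDegree := by rw [hG, natDegree_map_eq_of_injective injc]
  have Z : C (e : ℂ) * G.comp (C (x : ℂ) * X + C (y : ℂ)) - C (k : ℂ) * G = 0 := by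
    refine eq_zero_of_natDegree_lt_card_of_eval_eq_zero' _ (S.image (↑)) (fun z hz => ?_) ?_
    · obtain ⟨c, hc, rfl⟩ := mem_image.1 hz
      have : (x : ℂ) * c + y = (U c : ℕ) := by exact_mod_cast (col c hc).symm
      simp only [eval_sub, eval_mul, eval_C, eval_comp, eval_add, eval_X]
      rw [this, hG, cast_ev, cast_ev, sub_eq_zero]
      exact_mod_cast hU c hc
    · rw [card_image_of_injective _ Nat.cast_injective]
      refine lt_of_le_of_lt ((natDegree_sub_le _ _).trans (max_le ?_ ?_)) hc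
      · refine (natDegree_C_mul_le _ _).trans (natDegree_comp_le.trans ?_)
        rw [gd]
        exact (Nat.mul_le_mul_left _ natDegree_linear_le).trans (mul_one _).le
      · exact (natDegree_C_mul_le _ _).trans gd.le
  refine expand G (fun c => by rw [c] at gd; simp at gd; omega) r s hrs (hG ▸ hr) (hG ▸ hs) x y x0 x1
    fun z hz => ?_
  have := congrArg (eval z) Z
  simp only [eval_sub, eval_mul, eval_C, eval_comp, eval_add, eval_X, hz, eval_zero] at this
  simpa [k0.ne'] using this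

theorem cnt (A : ℕ → Prop) [DecidablePred A] (n0 K d : ℕ) (hK : 0 < K)
    (h : ∀ n, n0 ≤ n → ((Ico n (n + K)).filter A).card ≤ d) (N : ℕ) :
    (((Ioc 0 N).filter A).card : ℝ) ≤ n0 + (N / K + 1) * d := by
  have a : ∀ j, ((range (n0 + j * K)).filter A).card ≤ n0 + j * d := fun j => by
    induction j with
    | zero => simpa using (card_filter_le _ _).trans (card_range n0).le
    | succ j ih =>
      rw [add_one_mul, ← add_assoc, range_eq_Ico,
        ← Ico_union_Ico_eq_Ico (Nat.zero_le (n0 + j * K)) (Nat.le_add_right _ K), filter_union]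
      have := h (n0 + j * K) (Nat.le_add_right _ _)
      rw [range_eq_Ico] at ih
      exact (card_union_le _ _).trans (by rw [add_one_mul]; omega)
  have b : ((Ioc 0 N).filter A).card ≤ n0 + (N / K + 1) * d :=
    (card_le_card (filter_subset_filter _ fun x hx => mem_range.2 (by
      have := Nat.lt_div_mul_add (a := N) hK
      have := (mem_Ioc.1 hx).2
      rw [add_one_mul]; omega))).trans (a _)
  have c : (((Ioc 0 N).filter A).card : ℝ) ≤ n0 + ((N / K : ℕ) + 1) * d := by exact_mod_cast b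
  have := Nat.cast_div_le (α := ℝ) (m := N) (n := K)
  exact c.trans (by gcongr)

theorem rootwin (F : ℤ[X]) (hL : 0 < F.leadingCoeff) (p : ℕ) (hp : p.Prime)
    (hp' : F.leadingCoeff < p) (n : ℕ) :
    ((Ico n (n + p)).filter fun a : ℕ => (p : ℤ) ∣ F.eval (a : ℤ)).card ≤ F.natDegree := by
  classical
  haveI := Fact.mk hp
  have ne : F.map (Int.castRingHom (ZMod p)) ≠ 0 := fun c => by
    have := congrArg (coeff · F.natDegree) c
    simp only [coeff_map, coeff_zero, eq_intCast, ZMod.intCast_zmod_eq_zero_iff_dvd] at this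
    exact absurd (Int.le_of_dvd hL this) (not_le.2 hp')
  refine (card_le_card_of_injOn (t := (F.map (Int.castRingHom (ZMod p))).roots.toFinset)
    (fun a : ℕ => (a : ZMod p)) (fun a ha => ?_) fun a ha b hb ab => ?_).trans
    ((Multiset.toFinset_card_le _).trans ((card_roots' _).trans natDegree_map_le))
  · rw [mem_coe, Multiset.mem_toFinset, mem_roots ne, IsRoot, cast_ev,
      ZMod.intCast_zmod_eq_zero_iff_dvd]
    exact (mem_filter.1 ha).2
  · have ha := mem_Ico.1 (mem_filter.1 ha).1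
    have hb := mem_Ico.1 (mem_filter.1 hb).1
    have := (ZMod.natCast_eq_natCast_iff _ _ _).1 ab
    exact this.eq_of_abs_lt (by rw [abs_lt]; constructor <;> omega)

end Pool.Agent.H.MP_543a09_nt
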