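import Mathlib
import Pool.Agent.H.MP_543a09_nt.B

set_option autoImplicit false

namespace Pool.Agent.H.MP_543a09_nt

open Polynomial Filter Finset

theorem smooth (e h P : ℕ) (he : e ∣ h) (h1 : ∀ p, p.Prime → p ∣ e → p ≤ P)
    (h2 : ∀ p ∈ Icc 2 P, ¬ p ^ (P ^ 2) ∣ h) : e ≤ P.factorial ^ (P ^ 2) := by
  refine Nat.le_of_dvd (by positivity) ((Nat.dvd_iff_prime_pow_dvd_dvd _ _).2 fun p k hp hk => ?_)
  rcases k.eq_zero_or_pos with rfl | k0
  · simp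
  have a := h1 p hp ((dvd_pow_self p k0.ne').trans hk)
  have b : k ≤ P ^ 2 := not_lt.1 fun c =>
    h2 p (mem_Icc.2 ⟨hp.two_le, a⟩) ((pow_dvd_pow p c.le).trans (hk.trans he))
  exact (pow_dvd_pow p b).trans (pow_dvd_pow_of_dvd (Nat.dvd_factorial hp.pos a) _)

open Classical in
theorem bound (F : ℤ[X]) (hd : 2 ≤ F.natDegree) (hL : 0 < F.leadingCoeff) (r s : ℂ) (hrs : r ≠ s)
    (hr : (F.map (Int.castRingHom ℂ)).eval r = 0) (hs : (F.map (Int.castRingHom ℂ)).eval s = 0)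
    (B : ℕ × ℕ → Prop) (hB : ∀ a h : ℕ, B (a, h) → 0 < F.eval (a : ℤ) → ∃ u m : ℕ, u < a ∧ 0 < m ∧
      h * F.eval (u : ℤ) = m * F.eval (a : ℤ)) (P : ℕ) (P0 : 0 < P) (hP : F.leadingCoeff ≤ P) :
    ∃ c : ℝ, ∀ N : ℕ, (((Ioc 0 N ×ˢ Ioc 0 N).filter B).card : ℝ) ≤
      c * N + (4 * F.natDegree + 2) * N ^ 2 / P := by
  obtain ⟨Q, hQ⟩ : ∃ Q, Q = P.factorial ^ (P ^ 2) + 1 := ⟨_, rfl⟩
  obtain ⟨d, hdd⟩ : ∃ d, d = F.natDegree := ⟨_, rfl⟩
  obtain ⟨a0, h0⟩ := mono F hd hL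
  obtain ⟨T, hT⟩ : ∃ T, T = (range Q ×ˢ range Q).filter fun q : ℕ × ℕ => 0 < q.1 ∧ q.1 < q.2 :=
    ⟨_, rfl⟩
  obtain ⟨A, hA⟩ : ∃ A : ℕ → Prop, ∀ a, A a ↔ a < a0 ∨ ∃ q ∈ T,
      ∃ u : ℕ, q.2 * F.eval (u : ℤ) = q.1 * F.eval (a : ℤ) := ⟨_, fun _ => Iff.rfl⟩
  obtain ⟨K, hK⟩ : ∃ K, K = T.card * d * P + 1 := ⟨_, rfl⟩
  obtain ⟨n0, h1⟩ := eventually_atTop.1 (((eventually_all_finset T).2 fun q hq =>
    window F hd hL r s hrs hr hs q.1 q.2 K (by rw [hT] at hq; exact (mem_filter.1 hq).2.1)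
      (by rw [hT] at hq; exact (mem_filter.1 hq).2.2)).and (eventually_ge_atTop a0))
  have h2 := cnt A n0 K (T.card * d) (by omega) fun n hn => by
    obtain ⟨a, b⟩ := h1 n hn
    refine (card_le_card (t := T.biUnion fun q => (Ico n (n + K)).filter fun a : ℕ =>
      ∃ u : ℕ, q.2 * F.eval (u : ℤ) = q.1 * F.eval (a : ℤ)) fun x hx => ?_).trans
      (card_biUnion_le_card_mul _ _ _ fun q hq => hdd ▸ a q hq)
    obtain ⟨x1, x2⟩ := mem_filter.1 hx
    rcases (hA x).1 x2 with c | ⟨q, hq, c⟩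
    · have := (mem_Ico.1 x1).1; omega
    · exact mem_biUnion.2 ⟨q, hq, mem_filter.2 ⟨x1, c⟩⟩
  refine ⟨n0 + (T.card * d : ℕ), fun N => ?_⟩
  have sub : (Ioc 0 N ×ˢ Ioc 0 N).filter B ⊆ ((Ioc 0 N).filter A ×ˢ Ioc 0 N ∪
      ((Ioo P (N + 1)).filter Nat.Prime).biUnion fun p =>
        ((Ioc 0 N).filter fun a : ℕ => (p : ℤ) ∣ F.eval (a : ℤ)) ×ˢ (Ioc 0 N).filter (p ∣ ·)) ∪
      (Icc 2 P).biUnion fun p => Ioc 0 N ×ˢ (Ioc 0 N).filter (p ^ (P ^ 2) ∣ ·) := by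
    rintro ⟨a, h⟩ hx
    obtain ⟨x1, x2⟩ := mem_filter.1 hx
    obtain ⟨xa, xh⟩ := mem_product.1 x1
    by_contra hc
    simp only [mem_union, not_or, mem_biUnion, mem_product, mem_filter, not_exists, not_and] at hc
    obtain ⟨⟨c1, c2⟩, c3⟩ := hc
    have nA : ¬ A a := fun c => c1 ⟨xa, c⟩ xh
    rw [hA, not_or] at nA
    obtain ⟨f0, f1⟩ := h0 a (not_lt.1 nA.1)
    obtain ⟨u, m, ua, m0, E⟩ := hB a h x2 f0
    have hh := mem_Ioc.1 xh
    obtain ⟨e, k, co, he, hk⟩ := Nat.exists_coprime h m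
    have g0 : (0 : ℤ) < Nat.gcd h m := by exact_mod_cast Nat.gcd_pos_of_pos_right h m0
    have E' : e * F.eval (u : ℤ) = k * F.eval (a : ℤ) := by
      apply mul_right_cancel₀ g0.ne'
      have a1 : (h : ℤ) = e * Nat.gcd h m := by exact_mod_cast he
      have a2 : (m : ℤ) = k * Nat.gcd h m := by exact_mod_cast hk
      linear_combination E - F.eval (u : ℤ) * a1 + F.eval (a : ℤ) * a2
    have eh : e ∣ h := Dvd.intro _ he.symm
    have ef : (e : ℤ) ∣ F.eval (a : ℤ) :=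
      (Nat.isCoprime_iff_coprime.2 co).dvd_of_dvd_mul_left (Dvd.intro _ E')
    have k0 : 0 < k := Nat.pos_of_ne_zero fun c => by rw [c] at hk; omega
    have e0 : (0 : ℤ) < e := by exact_mod_cast Nat.pos_of_dvd_of_pos eh hh.1
    have ke : k < e := by
      have := mul_lt_mul_of_pos_left (f1 u ua) e0
      exact_mod_cast lt_of_mul_lt_mul_right (E' ▸ this) f0.le
    have := smooth e h P eh (fun p hp pe => not_lt.1 fun c => c2 p ⟨mem_Ioo.2 ⟨c,
      Nat.lt_succ_of_le ((Nat.le_of_dvd hh.1 (pe.trans eh)).trans hh.2)⟩, hp⟩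
      ⟨xa, (Int.natCast_dvd_natCast.2 pe).trans ef⟩ xh (pe.trans eh)) fun p hp => c3 p hp xa xh
    refine nA.2 ⟨(k, e), ?_, u, E'⟩
    rw [hT]
    exact mem_filter.2 ⟨mem_product.2 ⟨mem_range.2 (by omega), mem_range.2 (by omega)⟩, k0, ke⟩
  have Pr : (0 : ℝ) < P := by exact_mod_cast P0
  have t1 : (((Ioc 0 N).filter A ×ˢ Ioc 0 N).card : ℝ) ≤
      (n0 + (T.card * d : ℕ)) * N + N ^ 2 / P := by
    rw [card_product, Nat.card_Ioc, Nat.sub_zero, Nat.cast_mul]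
    have a : (N : ℝ) / K * (T.card * d : ℕ) ≤ N / P := by
      rw [div_mul_eq_mul_div, div_le_div_iff₀ (by exact_mod_cast (by omega : 0 < K)) Pr, mul_assoc]
      exact mul_le_mul_of_nonneg_left (by exact_mod_cast (by omega)) (by positivity)
    have := mul_le_mul_of_nonneg_right (h2 N) (Nat.cast_nonneg (α := ℝ) N)
    have := mul_le_mul_of_nonneg_right a (Nat.cast_nonneg (α := ℝ) N)
    rw [show (N : ℝ) ^ 2 / P = N / P * N by ring]
    linarith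
  have t2 : ((((Ioo P (N + 1)).filter Nat.Prime).biUnion fun p =>
      ((Ioc 0 N).filter fun a : ℕ => (p : ℤ) ∣ F.eval (a : ℤ)) ×ˢ
        (Ioc 0 N).filter (p ∣ ·)).card : ℝ) ≤ 4 * d * N ^ 2 / P := by
    refine (Nat.cast_le.2 card_biUnion_le).trans ?_
    rw [Nat.cast_sum]
    calc _ ≤ ∑ p ∈ (Ioo P (N + 1)).filter Nat.Prime, 2 * d * N ^ 2 * ((p : ℝ) ^ 2)⁻¹ := by
          refine sum_le_sum fun p hp => ?_
          obtain ⟨p1, p2⟩ := mem_filter.1 hp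
          obtain ⟨p3, p4⟩ := mem_Ioo.1 p1
          have a := cnt (fun a : ℕ => (p : ℤ) ∣ F.eval (a : ℤ)) 0 p d p2.pos (fun n _ => hdd ▸
            rootwin F hL p p2 (hP.trans_lt (by exact_mod_cast p3)) n) N
          have pr : (0 : ℝ) < p := by exact_mod_cast p2.pos
          have b : (1 : ℝ) ≤ N / p := by
            rw [le_div_iff₀ pr, one_mul]; exact_mod_cast Nat.le_of_lt_succ p4
          rw [card_product, Nat.Ioc_filter_dvd_card_eq_div, Nat.cast_mul]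
          calc _ ≤ (2 * (N / p) * d : ℝ) * (N / p) :=
                mul_le_mul (a.trans (by nlinarith [Nat.cast_nonneg (α := ℝ) d])) Nat.cast_div_le
                  (by positivity) (by positivity)
            _ = _ := by field_simp
      _ ≤ ∑ p ∈ Ioo P (N + 1), 2 * d * N ^ 2 * ((p : ℝ) ^ 2)⁻¹ :=
          sum_le_sum_of_subset_of_nonneg (filter_subset _ _) fun _ _ _ => by positivity
      _ ≤ 2 * d * N ^ 2 * (2 / P) := by
          rw [← mul_sum]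
          gcongr
          exact (sum_Ioo_inv_sq_le P (N + 1)).trans (by gcongr; linarith)
      _ = _ := by ring
  have t3 : (((Icc 2 P).biUnion fun p =>
      Ioc 0 N ×ˢ (Ioc 0 N).filter (p ^ (P ^ 2) ∣ ·)).card : ℝ) ≤ N ^ 2 / P := by
    have a := card_biUnion_le_card_mul (Icc 2 P) (fun p =>
      Ioc 0 N ×ˢ (Ioc 0 N).filter (p ^ (P ^ 2) ∣ ·)) (N * (N / P ^ 2)) fun p hp => by
        rw [card_product, Nat.Ioc_filter_dvd_card_eq_div, Nat.card_Ioc, Nat.sub_zero]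
        exact Nat.mul_le_mul_left _ (Nat.div_le_div_left (Nat.lt_two_pow_self.le.trans
          (Nat.pow_le_pow_left (mem_Icc.1 hp).1 _)) (by positivity))
    have b : (Icc 2 P).card ≤ P := by rw [Nat.card_Icc]; omega
    refine (Nat.cast_le.2 (a.trans (Nat.mul_le_mul_right _ b))).trans ?_
    have := Nat.cast_div_le (α := ℝ) (m := N) (n := P ^ 2)
    push_cast at this ⊢
    calc _ ≤ (P : ℝ) * (N * (N / P ^ 2)) := by gcongr
      _ = _ := by field_simp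
  have := (card_le_card sub).trans ((card_union_le _ _).trans
    (Nat.add_le_add_right (card_union_le _ _) _))
  have := (Nat.cast_le (α := ℝ)).2 this
  rw [Nat.cast_add, Nat.cast_add] at this
  rw [← hdd, show (4 * d + 2 : ℝ) * N ^ 2 / P = N ^ 2 / P + 4 * d * N ^ 2 / P + N ^ 2 / P by ring]
  linarith

end Pool.Agent.H.MP_543a09_nt
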